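import Pool.Agent.Q288.MZ.Lead

/-!
# Unconditional comparison with few lines
-/

set_option autoImplicit false

open Filter Topology Set MeasureTheory

namespace Pool.Agent.Q288.MZ

open Pool.Agent.W188.QS

theorem SS_pts {u : ℂ} {k N : ℕ} (hu : u ≠ 0) (hk : 1 ≤ k) (hN : 1 ≤ N) (a b : ℝ) :
    SS (cc u N) N (Zk k) a b = ∑ᶠ t ∈ Pts u N ∩ Ioc a b, ‖z t‖ ^ (2 * k) := by
  rw [sum_eq hu hN]
  · rfl
  · intro t ht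
    rw [ht, norm_zero, zero_pow (by omega)]

theorem cmp_upper {u : ℂ} {k N : ℕ} (hu : u ≠ 0) (hk : 1 ≤ k) (hN : 1 ≤ N) (hkN : k ≤ N + 1) {ε : ℝ}
    (h0 : 0 < ε) (h1 : ε < 1) : ∀ᶠ T : ℝ in atTop,
      ∑ᶠ t ∈ Pts u N ∩ Ioc T (2 * T), ‖z t‖ ^ (2 * k) ≤ (N / (2 * Real.pi) + ε) *
        (Real.log T * ∫ t in ((1 - ε) * T)..((2 + ε) * T), ‖z t‖ ^ (2 * k)) := by
  filter_upwards [upper a_maj a_line a_meas a_quad a_qs (cc_norm hu N) hk hN hkN h0 h1] with T hT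
  rw [← SS_pts hu hk hN]
  exact hT

theorem cmp_lower {u : ℂ} {k N : ℕ} (hu : u ≠ 0) (hk : 1 ≤ k) (hN : 1 ≤ N) (hkN : k ≤ N + 1) {ε : ℝ}
    (h0 : 0 < ε) (h1 : ε < 1) : ∀ᶠ T : ℝ in atTop,
      (N / (2 * Real.pi) - ε) * (Real.log T * ∫ t in T..(2 * T), ‖z t‖ ^ (2 * k)) ≤
        ∑ᶠ t ∈ Pts u N ∩ Ioc ((1 - ε) * T) ((2 + ε) * T), ‖z t‖ ^ (2 * k) := by
  filter_upwards [lower a_maj a_maj2 a_line a_meas a_quad a_qs (cc_norm hu N) hk hN hkN h0 h1] with T hT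
  rw [← SS_pts hu hk hN]
  exact hT

end Pool.Agent.Q288.MZ
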