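import Pool.Agent.W188.QS.All5
import Pool.Agent.W188.QS.Asm3

/-!
# Moments of zeta and the points on few lines

The lemmas on the lines are those of the starting file `MP_112ba8_nt.SamplingTheorem` (helper188); the equivalence is
the library theorem `Pool.Agent.W188.QS.equiv`.
-/

set_option autoImplicit false

open Filter Topology Set MeasureTheory

namespace Pool.Agent.Q288.MZ

/-- The value `ζ(1/2 + it)`. -/
noncomputable def z (t : ℝ) : ℂ := riemannZeta (1 / 2 + t * Complex.I)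

/-- The heights `t > 100` at which `ζ(1/2 + it)` is a nonzero point of one of the `N` lines `u e^{πij/N} ℝ`. -/
def Pts (u : ℂ) (N : ℕ) : Set ℝ :=
  {t | 100 < t ∧ ∃ (j : ℕ) (r : ℝ), r ≠ 0 ∧ z t = r * (u * Complex.exp (Real.pi * Complex.I * j / N))}

open Pool.Agent.W188.QS

lemma z_eq (t : ℝ) : z t = riemannZeta (cp t) := rfl

lemma Zk_z (k : ℕ) (t : ℝ) : ‖z t‖ ^ (2 * k) = Zk k t := rfl

/-- the number `c` that belongs to the direction `u` -/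
noncomputable def cc (u : ℂ) (N : ℕ) : ℂ := ((u / (‖u‖ : ℂ))⁻¹) ^ (2 * N)

lemma cc_norm {u : ℂ} (hu : u ≠ 0) (N : ℕ) : ‖cc u N‖ = 1 := by
  have h : ‖u‖ ≠ 0 := norm_ne_zero_iff.2 hu
  unfold cc
  rw [norm_pow, norm_inv, norm_div, Complex.norm_real, norm_norm, div_self h]
  simp

/-- points on the critical line with `w = 1`, in terms of `ζ` -/
lemma ww_iff {c : ℂ} {N : ℕ} {t : ℝ} (ht : 1 ≤ t) (hz : z t ≠ 0) :
    ww c N (cp t) = 1 ↔ c * z t ^ (2 * N) = ((‖z t‖ ^ (2 * N) : ℝ) : ℂ) := by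
  have hX : ‖XX (cp t)‖ = 1 := a_line.2.1 t
  have hX0 : XX (cp t) ≠ 0 := by
    intro h
    rw [h] at hX
    simp at hX
  have hfe : (starRingEnd ℂ) (z t) = XX (cp t) * z t := a_line.2.2.1 t ht
  have h1 : ((‖z t‖ ^ (2 * N) : ℝ) : ℂ) = XX (cp t) ^ N * z t ^ (2 * N) := by
    have h2 : ((‖z t‖ ^ 2 : ℝ) : ℂ) = XX (cp t) * z t ^ 2 := by
      have h3 := Complex.mul_conj (z t)
      rw [hfe, Complex.normSq_eq_norm_sq] at h3
      rw [← h3]; ring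
    rw [pow_mul, Complex.ofReal_pow, h2, mul_pow, pow_mul]
  rw [h1]
  have hz2 : z t ^ (2 * N) ≠ 0 := pow_ne_zero _ hz
  unfold ww
  rw [inv_pow]
  constructor
  · intro h
    have h2 : c = XX (cp t) ^ N := by
      have := congrArg (fun x => x * XX (cp t) ^ N) h
      simp only [one_mul] at this
      rw [mul_assoc, inv_mul_cancel₀ (pow_ne_zero _ hX0), mul_one] at this
      exact this
    rw [h2]
  · intro h
    have h2 : c = XX (cp t) ^ N := mul_right_cancel₀ hz2 h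
    rw [h2]
    exact mul_inv_cancel₀ (pow_ne_zero _ hX0)

/-- the algebraic description of the `N` lines -/
lemma line_iff {u x : ℂ} {N : ℕ} (hu : u ≠ 0) (hN : 1 ≤ N) (hx : x ≠ 0) :
    cc u N * x ^ (2 * N) = ((‖x‖ ^ (2 * N) : ℝ) : ℂ) ↔
      ∃ (j : ℕ) (r : ℝ), r ≠ 0 ∧ x = r * (u * Complex.exp (Real.pi * Complex.I * j / N)) := by
  have hu0 : ‖u‖ ≠ 0 := norm_ne_zero_iff.2 hu
  have hx0 : ‖x‖ ≠ 0 := norm_ne_zero_iff.2 hx
  have hu1 : (‖u‖ : ℂ) ≠ 0 := by exact_mod_cast hu0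
  have hx1 : (‖x‖ : ℂ) ≠ 0 := by exact_mod_cast hx0
  have hN0 : (N : ℂ) ≠ 0 := by
    have : N ≠ 0 := by omega
    exact_mod_cast this
  set v : ℂ := (u / (‖u‖ : ℂ))⁻¹ * (x / (‖x‖ : ℂ)) with hv
  have hv1 : cc u N * x ^ (2 * N) = v ^ (2 * N) * ((‖x‖ ^ (2 * N) : ℝ) : ℂ) := by
    rw [hv, cc, mul_pow, div_pow]
    push_cast
    field_simp
  have hX0 : ((‖x‖ ^ (2 * N) : ℝ) : ℂ) ≠ 0 := by
    push_cast
    exact pow_ne_zero _ hx1
  have hxv : x = ((‖x‖ / ‖u‖ : ℝ) : ℂ) * (u * v) := by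
    rw [hv]
    push_cast
    field_simp
  constructor
  · intro h
    rw [hv1] at h
    have h1 : v ^ (2 * N) = 1 := by
      have h2 : v ^ (2 * N) * ((‖x‖ ^ (2 * N) : ℝ) : ℂ) = 1 * ((‖x‖ ^ (2 * N) : ℝ) : ℂ) := by
        rw [h, one_mul]
      exact mul_right_cancel₀ hX0 h2
    have h2N : 2 * N ≠ 0 := by omega
    have : NeZero (2 * N) := ⟨h2N⟩
    obtain ⟨j, hj, hj2⟩ := (Complex.isPrimitiveRoot_exp (2 * N) h2N).eq_pow_of_pow_eq_one h1
    refine ⟨j, ‖x‖ / ‖u‖, div_ne_zero hx0 hu0, ?_⟩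
    have e1 : Complex.exp (Real.pi * Complex.I * j / N) = v := by
      rw [← hj2, ← Complex.exp_nat_mul]
      congr 1
      push_cast
      field_simp
    rw [e1]
    exact hxv
  · rintro ⟨j, r, hr, hxr⟩
    have hE : Complex.exp (Real.pi * Complex.I * j / N) ^ (2 * N) = 1 := by
      rw [← Complex.exp_nat_mul]
      have : ((2 * N : ℕ) : ℂ) * (Real.pi * Complex.I * j / N) = (j : ℤ) * (2 * Real.pi * Complex.I) := by
        push_cast
        field_simp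
      rw [this, Complex.exp_int_mul_two_pi_mul_I]
    have hEn : ‖Complex.exp (Real.pi * Complex.I * j / N)‖ = 1 := by
      have e : (Real.pi * Complex.I * j / N : ℂ) = ((Real.pi * j / N : ℝ) : ℂ) * Complex.I := by
        push_cast; ring
      rw [e, Complex.norm_exp_ofReal_mul_I]
    have hxn : ‖x‖ = |r| * ‖u‖ := by
      rw [hxr, norm_mul, norm_mul, hEn, Complex.norm_real, Real.norm_eq_abs, mul_one]
    have h4 : ((‖x‖ ^ (2 * N) : ℝ) : ℂ) = (r : ℂ) ^ (2 * N) * (‖u‖ : ℂ) ^ (2 * N) := by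
      rw [hxn, mul_pow, pow_mul |r|, sq_abs, ← pow_mul]
      push_cast
      ring
    rw [h4, cc, hxr]
    set E := Complex.exp (Real.pi * Complex.I * j / N)
    have : ((u / (‖u‖ : ℂ))⁻¹) ^ (2 * N) * ((r : ℂ) * (u * E)) ^ (2 * N) =
        (r : ℂ) ^ (2 * N) * (‖u‖ : ℂ) ^ (2 * N) * E ^ (2 * N) := by
      rw [inv_div, ← mul_pow, ← mul_pow, ← mul_pow]
      congr 1
      field_simp
    rw [this, hE, mul_one]

lemma Pts_iff {u : ℂ} {N : ℕ} (hu : u ≠ 0) (hN : 1 ≤ N) {t : ℝ} (hz : z t ≠ 0) :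
    t ∈ Pts u N ↔ t ∈ PP (cc u N) N := by
  constructor
  · rintro ⟨h1, h2⟩
    exact ⟨h1, (ww_iff (by linarith) hz).2 ((line_iff hu hN hz).2 h2)⟩
  · rintro ⟨h1, h2⟩
    exact ⟨h1, (line_iff hu hN hz).1 ((ww_iff (by linarith) hz).1 h2)⟩

lemma Pts_ne {u : ℂ} {N : ℕ} (hu : u ≠ 0) {t : ℝ} (h : t ∈ Pts u N) : z t ≠ 0 := by
  obtain ⟨-, j, r, hr, h2⟩ := h
  rw [h2]
  refine mul_ne_zero (by exact_mod_cast hr) (mul_ne_zero hu (Complex.exp_ne_zero _))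

/-- sums over `Pts` and over `PP` -/
lemma sum_eq {u : ℂ} {N : ℕ} (hu : u ≠ 0) (hN : 1 ≤ N) (U : Set ℝ) (f : ℝ → ℝ)
    (hf : ∀ t, z t = 0 → f t = 0) :
    ∑ᶠ t ∈ Pts u N ∩ U, f t = ∑ᶠ t ∈ PP (cc u N) N ∩ U, f t := by
  apply finsum_mem_inter_support_eq
  ext t
  simp only [mem_inter_iff, Function.mem_support]
  constructor
  · rintro ⟨⟨h1, h2⟩, h3⟩
    have hz : z t ≠ 0 := fun h => h3 (hf t h)
    exact ⟨⟨(Pts_iff hu hN hz).1 h1, h2⟩, h3⟩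
  · rintro ⟨⟨h1, h2⟩, h3⟩
    have hz : z t ≠ 0 := fun h => h3 (hf t h)
    exact ⟨⟨(Pts_iff hu hN hz).2 h1, h2⟩, h3⟩


theorem few_lines {u : ℂ} {k N : ℕ} (hu : u ≠ 0) (hk : 1 ≤ k) (hN : 1 ≤ N) (hkN : k ≤ N + 1) (a : ℝ) :
    Tendsto (fun T : ℝ => (1 / T * ∫ t in (0 : ℝ)..T, ‖z t‖ ^ (2 * k)) / Real.log T ^ (k ^ 2)) atTop (𝓝 a) ↔
    Tendsto (fun T : ℝ => (1 / T * (2 * Real.pi / N * ∑ᶠ t ∈ Pts u N ∩ Iic T, ‖z t‖ ^ (2 * k))) /
      Real.log T ^ (k ^ 2 + 1)) atTop (𝓝 a) := by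
  have h := equiv a_taub a_wt a_line a_meas a_quad a_qs (cc_norm hu N) hk hN hkN a
  have e1 : (fun T : ℝ => (∫ t in (0 : ℝ)..T, Zk k t) / (T * Real.log T ^ ((k : ℝ) ^ 2))) =
      fun T : ℝ => (1 / T * ∫ t in (0 : ℝ)..T, ‖z t‖ ^ (2 * k)) / Real.log T ^ (k ^ 2) := by
    funext T
    have e : (k : ℝ) ^ 2 = ((k ^ 2 : ℕ) : ℝ) := by push_cast; ring
    rw [e, Real.rpow_natCast]
    simp only [Zk_z]
    rw [div_mul_eq_div_div]
    ring
  have e2 : (fun T : ℝ => 2 * Real.pi / N * SS (cc u N) N (Zk k) 0 T /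
        (T * Real.log T ^ ((k : ℝ) ^ 2 + 1))) =
      fun T : ℝ => (1 / T * (2 * Real.pi / N * ∑ᶠ t ∈ Pts u N ∩ Iic T, ‖z t‖ ^ (2 * k))) /
        Real.log T ^ (k ^ 2 + 1) := by
    funext T
    have e : (k : ℝ) ^ 2 + 1 = ((k ^ 2 + 1 : ℕ) : ℝ) := by push_cast; ring
    rw [e, Real.rpow_natCast]
    have e3 : SS (cc u N) N (Zk k) 0 T = ∑ᶠ t ∈ Pts u N ∩ Iic T, ‖z t‖ ^ (2 * k) := by
      rw [sum_eq hu hN]
      · unfold SS
        have : PP (cc u N) N ∩ Ioc 0 T = PP (cc u N) N ∩ Iic T := by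
          ext t
          simp only [mem_inter_iff, mem_Ioc, mem_Iic]
          constructor
          · rintro ⟨h2, h3, h4⟩
            exact ⟨h2, h4⟩
          · rintro ⟨h2, h4⟩
            exact ⟨h2, by linarith [h2.1], h4⟩
        rw [this]
        rfl
      · intro t ht
        rw [ht, norm_zero, zero_pow (by omega)]
    rw [e3, div_mul_eq_div_div]
    ring
  rw [e1, e2] at h
  exact h

end Pool.Agent.Q288.MZ
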