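import Pool.Agent.Q288.MZ.Few

/-!
# Leading terms for many lines and general normalisations
-/

set_option autoImplicit false

open Filter Topology Set MeasureTheory

namespace Pool.Agent.Q288.MZ

open Pool.Agent.W188.QS

/-- the local average is small if the distribution function has an asymptotic formula -/
theorem local_small {μ : Measure ℝ} (m1 : ∀ x : ℝ, μ (Iic x) < ⊤) {g : ℝ → ℝ} {c : ℝ}
    (g1 : Tendsto g atTop atTop)
    (g2 : ∀ R : ℝ, Tendsto (fun T => g (T + R) / g T) atTop (𝓝 1))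
    (g3 : ∃ K : ℝ, ∀ᶠ T : ℝ in atTop, g (3 * T / 2) ≤ K * g T)
    (h : Tendsto (fun T => μ.real (Ioc 0 T) / g T) atTop (𝓝 c)) :
    Tendsto (fun T => (∫ t in Ioo (T / 2) (3 * T / 2), gg T 1 t ∂μ) / g T) atTop (𝓝 0) := by
  set F : ℝ → ℝ := fun T => μ.real (Ioc 0 T) with hF
  have hfin : ∀ a b : ℝ, μ (Ioc a b) ≠ ⊤ := fun a b =>
    ((measure_mono (fun _ h => h.2 : Ioc a b ⊆ Iic b)).trans_lt (m1 b)).ne
  have hfin2 : ∀ a b : ℝ, μ (Ioo a b) ≠ ⊤ := fun a b =>
    ((measure_mono (fun _ h => h.2.le : Ioo a b ⊆ Iic b)).trans_lt (m1 b)).ne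
  -- the pointwise bound
  have hD : ∀ R T : ℝ, 0 ≤ R → R ≤ T → 0 ≤ T →
      ∫ t in Ioo (T / 2) (3 * T / 2), gg T 1 t ∂μ ≤
        (F (T + R) - F (T - R)) + Real.exp (-R ^ 2) * F (3 * T / 2) := by
    intro R T hR hRT hT
    have e0 : F (T + R) - F (T - R) = μ.real (Ioc (T - R) (T + R)) := by
      have hu : Ioc 0 (T + R) = Ioc 0 (T - R) ∪ Ioc (T - R) (T + R) :=
        (Ioc_union_Ioc_eq_Ioc (by linarith) (by linarith)).symm
      have hd : Disjoint (Ioc 0 (T - R)) (Ioc (T - R) (T + R)) := by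
        rw [Set.disjoint_left]
        intro x hx hx2
        exact absurd hx2.1 (not_lt.2 hx.2)
      have := measureReal_union (μ := μ) hd measurableSet_Ioc (hfin _ _) (hfin _ _)
      simp only [hF]
      rw [hu, this]
      ring
    have hgi : IntegrableOn (fun t => gg T 1 t) (Ioo (T / 2) (3 * T / 2)) μ := by
      apply Measure.integrableOn_of_bounded (hfin2 _ _) (gg_cont T 1).aestronglyMeasurable (M := 1)
      refine Filter.Eventually.of_forall fun t => ?_
      unfold gg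
      rw [Real.norm_of_nonneg (Real.exp_pos _).le, Real.exp_le_one_iff]
      have := sq_nonneg ((t - T) / 1)
      linarith
    have hi2 : Integrable (fun _ : ℝ => Real.exp (-R ^ 2)) (μ.restrict (Ioo (T / 2) (3 * T / 2))) :=
      integrableOn_const (hfin2 _ _)
    have hi1 : Integrable (fun t : ℝ => (Ioc (T - R) (T + R)).indicator (fun _ => (1 : ℝ)) t)
        (μ.restrict (Ioo (T / 2) (3 * T / 2))) := by
      have h1 : Integrable (fun _ : ℝ => (1 : ℝ)) (μ.restrict (Ioo (T / 2) (3 * T / 2))) :=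
        integrableOn_const (hfin2 _ _)
      exact h1.indicator measurableSet_Ioc
    have hind : IntegrableOn (fun t => (Ioc (T - R) (T + R)).indicator (fun _ => (1 : ℝ)) t +
        Real.exp (-R ^ 2)) (Ioo (T / 2) (3 * T / 2)) μ := hi1.add hi2
    have hle : ∫ t in Ioo (T / 2) (3 * T / 2), gg T 1 t ∂μ ≤
        ∫ t in Ioo (T / 2) (3 * T / 2), ((Ioc (T - R) (T + R)).indicator (fun _ => (1 : ℝ)) t +
          Real.exp (-R ^ 2)) ∂μ := by
      apply setIntegral_mono_on hgi hind measurableSet_Ioo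
      intro t _
      unfold gg
      by_cases ht : t ∈ Ioc (T - R) (T + R)
      · rw [indicator_of_mem ht]
        have : Real.exp (-((t - T) / 1) ^ 2) ≤ 1 := by
          rw [Real.exp_le_one_iff]
          have := sq_nonneg ((t - T) / 1)
          linarith
        have := Real.exp_pos (-R ^ 2)
        linarith
      · rw [indicator_of_notMem ht, zero_add]
        apply Real.exp_le_exp.2
        rw [div_one]
        have : R ≤ |t - T| := by
          rw [mem_Ioc, not_and_or, not_lt, not_le] at ht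
          rcases ht with ht | ht
          · rw [abs_sub_comm]
            exact (by linarith : R ≤ T - t).trans (le_abs_self _)
          · exact (by linarith : R ≤ t - T).trans (le_abs_self _)
        have h2 : R ^ 2 ≤ |t - T| ^ 2 := pow_le_pow_left₀ hR this 2
        rw [sq_abs] at h2
        linarith
    refine hle.trans ?_
    rw [integral_add hi1 hi2, integral_indicator measurableSet_Ioc, Measure.restrict_restrict measurableSet_Ioc,
      setIntegral_const, setIntegral_const, smul_eq_mul, smul_eq_mul, mul_one, e0]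
    apply add_le_add
    · exact measureReal_mono inter_subset_left (hfin _ _)
    · rw [mul_comm]
      apply mul_le_mul_of_nonneg_left _ (Real.exp_pos _).le
      apply measureReal_mono _ (hfin _ _)
      intro t ht
      exact ⟨by linarith [ht.1], ht.2.le⟩
  -- limits
  have hg0 : ∀ᶠ T in atTop, 0 < g T := g1.eventually_gt_atTop 0
  have hsh : ∀ R : ℝ, Tendsto (fun T => F (T + R) / g T) atTop (𝓝 c) := by
    intro R
    have ht : Tendsto (fun T : ℝ => T + R) atTop atTop := tendsto_atTop_add_const_right _ _ tendsto_id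
    have h1 := (h.comp ht).mul (g2 R)
    rw [mul_one] at h1
    refine h1.congr' ?_
    filter_upwards [hg0, ht.eventually hg0] with T h2 h3
    simp only [Function.comp]
    field_simp
    rfl
  obtain ⟨K, hK⟩ := g3
  have ht3 : Tendsto (fun T : ℝ => 3 * T / 2) atTop atTop := by
    have : (fun T : ℝ => 3 * T / 2) = fun T : ℝ => (3 / 2) * T := by funext T; ring
    rw [this]
    exact tendsto_id.const_mul_atTop (by norm_num)
  have hbd : ∀ᶠ T in atTop, F (3 * T / 2) / g T ≤ (|c| + 1) * |K| := by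
    have h1 : ∀ᶠ T in atTop, F (3 * T / 2) / g (3 * T / 2) < |c| + 1 :=
      (h.comp ht3).eventually_lt_const (by linarith [le_abs_self c])
    filter_upwards [h1, hK, hg0, ht3.eventually hg0] with T h1 h2 h3 h4
    rw [div_lt_iff₀ h4] at h1
    rw [div_le_iff₀ h3]
    have h5 : g (3 * T / 2) ≤ |K| * g T := h2.trans (mul_le_mul_of_nonneg_right (le_abs_self K) h3.le)
    calc F (3 * T / 2) ≤ (|c| + 1) * g (3 * T / 2) := h1.le
      _ ≤ (|c| + 1) * (|K| * g T) := mul_le_mul_of_nonneg_left h5 (by positivity)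
      _ = _ := by ring
  rw [Metric.tendsto_atTop']
  intro ε hε
  set B : ℝ := (|c| + 1) * |K| with hB
  have hB0 : 0 ≤ B := by positivity
  -- choose R
  obtain ⟨R, hR0, hR⟩ : ∃ R : ℝ, 0 ≤ R ∧ Real.exp (-R ^ 2) * B ≤ ε / 4 := by
    have h1 : Tendsto (fun R : ℝ => Real.exp (-R ^ 2) * B) atTop (𝓝 (0 * B)) := by
      apply Tendsto.mul_const
      apply Real.tendsto_exp_atBot.comp
      exact tendsto_neg_atTop_atBot.comp (tendsto_pow_atTop two_ne_zero)
    rw [zero_mul] at h1
    obtain ⟨R, h2, h3⟩ := ((h1.eventually_lt_const (by positivity : 0 < ε / 4)).and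
      (eventually_ge_atTop 0)).exists
    exact ⟨R, h3, h2.le⟩
  have h2 : Tendsto (fun T => F (T + R) / g T - F (T + -R) / g T) atTop (𝓝 (c - c)) :=
    (hsh R).sub (hsh (-R))
  rw [sub_self] at h2
  have h3 := h2.eventually_lt_const (by positivity : 0 < ε / 4)
  obtain ⟨T0, hT0⟩ := eventually_atTop.1 (h3.and (hbd.and (hg0.and
    ((eventually_ge_atTop R).and (eventually_ge_atTop 0)))))
  refine ⟨T0, fun T hT => ?_⟩
  obtain ⟨q1, q2, q3, q4, q5⟩ := hT0 T hT.le
  have hnn : 0 ≤ ∫ t in Ioo (T / 2) (3 * T / 2), gg T 1 t ∂μ :=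
    integral_nonneg (fun t => (Real.exp_pos _).le)
  rw [Real.dist_eq, sub_zero, abs_of_nonneg (div_nonneg hnn q3.le)]
  have h4 := hD R T hR0 q4 q5
  calc _ ≤ ((F (T + R) - F (T - R)) + Real.exp (-R ^ 2) * F (3 * T / 2)) / g T :=
        div_le_div_of_nonneg_right h4 q3.le
    _ = (F (T + R) / g T - F (T + -R) / g T) + Real.exp (-R ^ 2) * (F (3 * T / 2) / g T) := by
        rw [← sub_eq_add_neg]
        ring
    _ ≤ ε / 4 + Real.exp (-R ^ 2) * B := by
        apply add_le_add q1.le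
        exact mul_le_mul_of_nonneg_left q2 (Real.exp_pos _).le
    _ < ε := by linarith

/-- leading terms of two measures with the same Gaussian averages -/
theorem lead_iff {A : ℝ} {μ ν : Measure ℝ} (m1 : ∀ x : ℝ, μ (Iic x) < ⊤) (m2 : ∀ x : ℝ, ν (Iic x) < ⊤)
    (m3 : μ (Iic 1) = 0) (m4 : ν (Iic 1) = 0)
    (m5 : ∀ᶠ T : ℝ in atTop, μ.real (Ioc 0 T) ≤ T ^ A) (m6 : ∀ᶠ T : ℝ in atTop, ν.real (Ioc 0 T) ≤ T ^ A)
    (he : Exact1 μ ν) {g : ℝ → ℝ} {c : ℝ}
    (g1 : Tendsto g atTop atTop)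
    (g2 : ∀ R : ℝ, Tendsto (fun T => g (T + R) / g T) atTop (𝓝 1))
    (g3 : ∃ K : ℝ, ∀ᶠ T : ℝ in atTop, g (3 * T / 2) ≤ K * g T) :
    Tendsto (fun T => μ.real (Ioc 0 T) / g T) atTop (𝓝 c) ↔
      Tendsto (fun T => ν.real (Ioc 0 T) / g T) atTop (𝓝 c) := by
  have hg0 : ∀ᶠ T in atTop, 0 < g T := g1.eventually_gt_atTop 0
  obtain ⟨C, T₀, h⟩ := a_sharp A μ ν m1 m2 m3 m4 m5 m6 he
  -- if the local average is small, the difference is small
  have key : Tendsto (fun T => (∫ t in Ioo (T / 2) (3 * T / 2), gg T 1 t ∂μ) / g T) atTop (𝓝 0) →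
      Tendsto (fun T => ν.real (Ioc 0 T) / g T - μ.real (Ioc 0 T) / g T) atTop (𝓝 0) := by
    intro h1
    have h2 : Tendsto (fun T => C * (1 / g T + (∫ t in Ioo (T / 2) (3 * T / 2), gg T 1 t ∂μ) / g T))
        atTop (𝓝 (C * (0 + 0))) := (Tendsto.add (g1.const_div_atTop 1) h1).const_mul C
    rw [add_zero, mul_zero] at h2
    apply squeeze_zero_norm' _ h2
    filter_upwards [hg0, eventually_ge_atTop T₀] with T h3 h4
    rw [← sub_div, Real.norm_eq_abs, abs_div, abs_of_pos h3]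
    refine (div_le_div_of_nonneg_right (h T h4) h3.le).trans (le_of_eq ?_)
    ring
  constructor
  · intro h1
    have h2 := key (local_small m1 g1 g2 g3 h1)
    have h3 := h2.add h1
    rw [zero_add] at h3
    refine h3.congr fun T => ?_
    ring
  · intro h1
    have h2 := local_small m2 g1 g2 g3 h1
    obtain ⟨C', T', h'⟩ := he
    have h3 : Tendsto (fun T => (∫ t in Ioo (T / 2) (3 * T / 2), gg T 1 t ∂μ) / g T) atTop (𝓝 0) := by
      have h4 : Tendsto (fun T => (∫ t in Ioo (T / 2) (3 * T / 2), gg T 1 t ∂ν) / g T +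
          |C'| * (1 / g T)) atTop (𝓝 (0 + |C'| * 0)) := h2.add ((g1.const_div_atTop 1).const_mul _)
      rw [mul_zero, add_zero] at h4
      apply squeeze_zero_norm' _ h4
      filter_upwards [hg0, eventually_ge_atTop T', eventually_ge_atTop 1] with T h5 h6 h7
      have hnn : 0 ≤ ∫ t in Ioo (T / 2) (3 * T / 2), gg T 1 t ∂μ :=
        integral_nonneg (fun t => (Real.exp_pos _).le)
      rw [Real.norm_eq_abs, abs_of_nonneg (div_nonneg hnn h5.le)]
      have h8 := h' T h6
      have h9 : C' * T ^ (-(3 : ℝ)) ≤ |C'| := by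
        have h10 : T ^ (-(3 : ℝ)) ≤ 1 := Real.rpow_le_one_of_one_le_of_nonpos h7 (by norm_num)
        have h11 : 0 ≤ T ^ (-(3 : ℝ)) := Real.rpow_nonneg (by linarith) _
        calc C' * T ^ (-(3 : ℝ)) ≤ |C'| * T ^ (-(3 : ℝ)) := mul_le_mul_of_nonneg_right (le_abs_self _) h11
          _ ≤ |C'| * 1 := mul_le_mul_of_nonneg_left h10 (abs_nonneg _)
          _ = |C'| := mul_one _
      have h12 : ∫ t in Ioo (T / 2) (3 * T / 2), gg T 1 t ∂μ ≤
          ∫ t in Ioo (T / 2) (3 * T / 2), gg T 1 t ∂ν + |C'| := by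
        have := (abs_le.1 h8).2
        linarith
      calc _ ≤ (∫ t in Ioo (T / 2) (3 * T / 2), gg T 1 t ∂ν + |C'|) / g T :=
            div_le_div_of_nonneg_right h12 h5.le
        _ = _ := by ring
    have h4 := h1.sub (key h3)
    rw [sub_zero] at h4
    refine h4.congr fun T => ?_
    ring

/-- many lines: the same leading terms for every normalisation -/
theorem many_lines {u : ℂ} {k N : ℕ} (hu : u ≠ 0) (hk : 1 ≤ k) (hN : k + 1 ≤ N) {g : ℝ → ℝ} {c : ℝ}
    (g1 : Tendsto g atTop atTop)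
    (g2 : ∀ R : ℝ, Tendsto (fun T => g (T + R) / g T) atTop (𝓝 1))
    (g3 : ∃ K : ℝ, ∀ᶠ T : ℝ in atTop, g (3 * T / 2) ≤ K * g T) :
    Tendsto (fun T => (∫ t in (0 : ℝ)..T, ‖z t‖ ^ (2 * k)) / g T) atTop (𝓝 c) ↔
      Tendsto (fun T => (2 * Real.pi / N * ∑ᶠ t ∈ Pts u N ∩ Iic T,
        ‖z t‖ ^ (2 * k) / Pool.Agent.W188.QS.lam t) / g T) atTop (𝓝 c) := by
  have hN1 : 1 ≤ N := by omega
  obtain ⟨m1, m2, -, -, -, m6, m7⟩ := a_meas (cc u N) k N (cc_norm hu N) hk hN1
  obtain ⟨A, q1, q2⟩ := a_grow (cc u N) k N (cc_norm hu N) hk hN1 (by omega)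
  have h := lead_iff (A := A) m1 m2 (muk_one k) (nuk_one (cc u N) k N) q2 q1
    (exact_one hk hN (cc_norm hu N)) g1 g2 g3 (c := c)
  have e1 : ∀ T : ℝ, (nuk (cc u N) k N).real (Ioc 0 T) = 2 * Real.pi / N * ∑ᶠ t ∈ Pts u N ∩ Iic T,
        ‖z t‖ ^ (2 * k) / Pool.Agent.W188.QS.lam t := by
    intro T
    have hf : (PP (cc u N) N ∩ Ioc 0 T).Finite :=
      (a_line.2.2.2.2.2.2.2.2.2 (cc u N) N (cc_norm hu N) hN1 T).subset
        (inter_subset_inter_right _ (fun _ h => h.2))
    have e0 : PP (cc u N) N ∩ Ioc 0 T = PP (cc u N) N ∩ Iic T := by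
      ext t
      simp only [mem_inter_iff, mem_Ioc, mem_Iic]
      constructor
      · rintro ⟨h2, h3, h4⟩
        exact ⟨h2, h4⟩
      · rintro ⟨h2, h4⟩
        exact ⟨h2, by linarith [h2.1], h4⟩
    rw [sum_eq hu hN1, ← e0, m7, finsum_mem_eq_finite_toFinset_sum _ hf,
      finsum_mem_eq_finite_toFinset_sum _ hf, Finset.mul_sum]
    · apply Finset.sum_congr rfl
      intro t _
      simp only [rho, Zk_z]
    · intro t ht
      rw [ht, norm_zero, zero_pow (by omega), zero_div]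
  have e2 : Tendsto (fun T => (∫ t in (0 : ℝ)..T, ‖z t‖ ^ (2 * k)) / g T) atTop (𝓝 c) ↔
      Tendsto (fun T => (muk k).real (Ioc 0 T) / g T) atTop (𝓝 c) := by
    have h1 : Tendsto (fun T : ℝ => (∫ t in (0 : ℝ)..100, Zk k t) / g T) atTop (𝓝 0) :=
      g1.const_div_atTop _
    have h2 : ∀ᶠ T : ℝ in atTop, (∫ t in (0 : ℝ)..T, ‖z t‖ ^ (2 * k)) / g T =
        (∫ t in (0 : ℝ)..100, Zk k t) / g T + (muk k).real (Ioc 0 T) / g T := by
      filter_upwards [eventually_ge_atTop 100] with T hT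
      rw [m6 T hT, ← add_div, intervalIntegral.integral_add_adjacent_intervals
        ((Zk_cont k).intervalIntegrable _ _) ((Zk_cont k).intervalIntegrable _ _)]
      rfl
    constructor
    · intro h
      have h3 := h.sub h1
      rw [sub_zero] at h3
      refine h3.congr' ?_
      filter_upwards [h2] with T hT
      rw [hT]; ring
    · intro h
      have h3 := h1.add h
      rw [zero_add] at h3
      refine h3.congr' ?_
      filter_upwards [h2] with T hT
      rw [hT]
  rw [e2, h]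
  simp only [e1]

theorem pts_finite {u : ℂ} {N : ℕ} (hu : u ≠ 0) (hN : 1 ≤ N) (T : ℝ) : (Pts u N ∩ Iic T).Finite := by
  refine (a_line.2.2.2.2.2.2.2.2.2 (cc u N) N (cc_norm hu N) hN T).subset ?_
  rintro t ⟨h1, h2⟩
  exact ⟨(Pts_iff hu hN (Pts_ne hu h1)).1 h1, h2⟩

/-- division by a constant -/
theorem const_iff {F G : ℝ → ℝ} (C : ℝ) {L₁ L₂ : ℝ → ℝ}
    (h : Tendsto (fun T => F T / L₁ T) atTop (𝓝 C) ↔ Tendsto (fun T => G T / L₂ T) atTop (𝓝 C)) :
    Tendsto (fun T => F T / (C * L₁ T)) atTop (𝓝 1) ↔ Tendsto (fun T => G T / (C * L₂ T)) atTop (𝓝 1) := by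
  rcases eq_or_ne C 0 with h0 | h0
  · subst h0
    simp only [zero_mul, div_zero]
  · have key : ∀ F L : ℝ → ℝ, Tendsto (fun T => F T / (C * L T)) atTop (𝓝 1) ↔
        Tendsto (fun T => F T / L T) atTop (𝓝 C) := by
      intro F L
      constructor
      · intro h
        have h2 := h.const_mul C
        rw [mul_one] at h2
        refine h2.congr fun T => ?_
        rw [div_mul_eq_div_div]
        field_simp
      · intro h
        have h2 := h.const_mul C⁻¹
        rw [inv_mul_cancel₀ h0] at h2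
        refine h2.congr fun T => ?_
        rw [div_mul_eq_div_div]
        field_simp
    rw [key, key]
    exact h

end Pool.Agent.Q288.MZ
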