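import Pool.Agent.Q288.MZ.Cmp
import Pool.Agent.Q231.RS.Weyl

/-!
# The sixth moment: unconditional error terms for many lines
-/

set_option autoImplicit false

open Filter Topology Set MeasureTheory

namespace Pool.Agent.Q288.MZ

open Pool.Agent.W188.QS

theorem nuk_eq {u : ℂ} {k N : ℕ} (hu : u ≠ 0) (hk : 1 ≤ k) (hN1 : 1 ≤ N) (T : ℝ) :
    (nuk (cc u N) k N).real (Ioc 0 T) = 2 * Real.pi / N * ∑ᶠ t ∈ Pts u N ∩ Iic T,
        ‖z t‖ ^ (2 * k) / Pool.Agent.W188.QS.lam t := by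
  obtain ⟨m1, m2, -, -, -, m6, m7⟩ := a_meas (cc u N) k N (cc_norm hu N) hk hN1
  have hf : (PP (cc u N) N ∩ Ioc 0 T).Finite :=
    (a_line.2.2.2.2.2.2.2.2.2 (cc u N) N (cc_norm hu N) hN1 T).subset
      (inter_subset_inter_right _ (fun _ h => h.2))
  have e0 : PP (cc u N) N ∩ Ioc 0 T = PP (cc u N) N ∩ Iic T := by
    ext t
    simp only [mem_inter_iff, mem_Ioc, mem_Iic]
    constructor
    · rintro ⟨h2, h3, h4⟩
      exact ⟨h2, h4⟩
    · rintro ⟨h2, h4⟩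
      exact ⟨h2, by linarith [h2.1], h4⟩
  rw [sum_eq hu hN1, ← e0, m7, finsum_mem_eq_finite_toFinset_sum _ hf,
    finsum_mem_eq_finite_toFinset_sum _ hf, Finset.mul_sum]
  · apply Finset.sum_congr rfl
    intro t _
    simp only [rho, Zk_z]
  · intro t ht
    rw [ht, norm_zero, zero_pow (by omega), zero_div]

/-- the sharp cut-off -/
theorem sharp_diff {u : ℂ} {k N : ℕ} (hu : u ≠ 0) (hk : 1 ≤ k) (hN : k + 1 ≤ N) :
    ∃ C T₀ : ℝ, 0 ≤ C ∧ ∀ T : ℝ, T₀ ≤ T →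
      |2 * Real.pi / N * (∑ᶠ t ∈ Pts u N ∩ Iic T, ‖z t‖ ^ (2 * k) / Pool.Agent.W188.QS.lam t) -
        ∫ t in (0 : ℝ)..T, ‖z t‖ ^ (2 * k)| ≤
        C * (1 + ∫ t in (T / 2)..(3 * T / 2), ‖z t‖ ^ (2 * k) * Real.exp (-(t - T) ^ 2)) := by
  have hN1 : 1 ≤ N := by omega
  obtain ⟨m1, m2, m3, -, -, m6, -⟩ := a_meas (cc u N) k N (cc_norm hu N) hk hN1
  obtain ⟨A, g1, g2⟩ := a_grow (cc u N) k N (cc_norm hu N) hk hN1 (by omega)
  obtain ⟨C, T₀, h⟩ := a_sharp A (muk k) (nuk (cc u N) k N) m1 m2 (muk_one k)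
    (nuk_one (cc u N) k N) g2 g1 (exact_one hk hN (cc_norm hu N))
  have hC : ∀ T : ℝ, T₀ ≤ T → |(nuk (cc u N) k N).real (Ioc 0 T) - (muk k).real (Ioc 0 T)| ≤
      |C| * (1 + ∫ t in Ioo (T / 2) (3 * T / 2), gg T 1 t ∂(muk k)) := by
    intro T hT
    refine (h T hT).trans ?_
    apply mul_le_mul_of_nonneg_right (le_abs_self C)
    have : 0 ≤ ∫ t in Ioo (T / 2) (3 * T / 2), gg T 1 t ∂(muk k) :=
      integral_nonneg (fun t => (Real.exp_pos _).le)
    linarith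
  refine ⟨|C| + |∫ t in (0 : ℝ)..100, Zk k t|, max T₀ 200, by positivity, fun T hT => ?_⟩
  have hT1 : T₀ ≤ T := (le_max_left _ _).trans hT
  have hT2 : 200 ≤ T := (le_max_right _ _).trans hT
  have h3 := hC T hT1
  rw [m6 T (by linarith), m3 _ (gg_cont T 1) _ _ (by linarith) (by linarith)] at h3
  rw [← nuk_eq hu hk hN1]
  have e1 : ∫ t in (0 : ℝ)..T, ‖z t‖ ^ (2 * k) =
      (∫ t in (0 : ℝ)..100, Zk k t) + ∫ t in (100 : ℝ)..T, Zk k t :=
    (intervalIntegral.integral_add_adjacent_intervals ((Zk_cont k).intervalIntegrable _ _)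
      ((Zk_cont k).intervalIntegrable _ _)).symm
  have e2 : ∫ t in (T / 2)..(3 * T / 2), Zk k t * gg T 1 t =
      ∫ t in (T / 2)..(3 * T / 2), ‖z t‖ ^ (2 * k) * Real.exp (-(t - T) ^ 2) := by
    apply intervalIntegral.integral_congr
    intro t _
    simp only [gg, div_one, Zk_z]
  rw [e2] at h3
  rw [e1]
  set G := ∫ t in (T / 2)..(3 * T / 2), ‖z t‖ ^ (2 * k) * Real.exp (-(t - T) ^ 2) with hG
  have hG0 : 0 ≤ G := by
    rw [hG]
    apply intervalIntegral.integral_nonneg (by linarith)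
    intro t _
    positivity
  have h4 : |(nuk (cc u N) k N).real (Ioc 0 T) -
      ((∫ t in (0 : ℝ)..100, Zk k t) + ∫ t in (100 : ℝ)..T, Zk k t)| ≤
      |(nuk (cc u N) k N).real (Ioc 0 T) - ∫ t in (100 : ℝ)..T, Zk k t| +
        |∫ t in (0 : ℝ)..100, Zk k t| := by
    rw [show (nuk (cc u N) k N).real (Ioc 0 T) -
      ((∫ t in (0 : ℝ)..100, Zk k t) + ∫ t in (100 : ℝ)..T, Zk k t) =
      ((nuk (cc u N) k N).real (Ioc 0 T) - ∫ t in (100 : ℝ)..T, Zk k t) -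
        ∫ t in (0 : ℝ)..100, Zk k t by ring]
    exact abs_sub _ _
  have h5 : |∫ t in (0 : ℝ)..100, Zk k t| ≤ |∫ t in (0 : ℝ)..100, Zk k t| * (1 + G) :=
    le_mul_of_one_le_right (abs_nonneg _) (by linarith)
  calc _ ≤ _ := h4
    _ ≤ |C| * (1 + G) + |∫ t in (0 : ℝ)..100, Zk k t| * (1 + G) := add_le_add h3 h5
    _ = _ := by ring

/-- the local sixth moment -/
theorem local_six : ∃ C : ℝ, 0 ≤ C ∧ ∀ T : ℝ, 4 ≤ T →
    ∫ t in (T / 2)..(3 * T / 2), ‖z t‖ ^ (2 * 3) * Real.exp (-(t - T) ^ 2) ≤ C * (T * Real.log T ^ 6) := by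
  obtain ⟨C, hC, h⟩ := Pool.Agent.Q231.RS.weyl_log
  refine ⟨C ^ 6 * (2 * 2 ^ 6) * √Real.pi, by positivity, fun T hT => ?_⟩
  have hT0 : 0 < T := by linarith
  have hL0 : 0 ≤ Real.log T := Real.log_nonneg (by linarith)
  have hpt : ∀ t ∈ Icc (T / 2) (3 * T / 2), ‖z t‖ ^ (2 * 3) * Real.exp (-(t - T) ^ 2) ≤
      (C ^ 6 * (2 * 2 ^ 6) * (T * Real.log T ^ 6)) * Real.exp (-(t - T) ^ 2) := by
    intro t ht
    apply mul_le_mul_of_nonneg_right _ (Real.exp_pos _).le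
    have ht2 : 2 ≤ t := by linarith [ht.1]
    have ht0 : 0 < t := by linarith
    have h1 : ‖z t‖ ≤ C * (t ^ (1 / 6 : ℝ) * Real.log t) := h t ht2
    have hl0 : 0 ≤ Real.log t := Real.log_nonneg (by linarith)
    have hl : Real.log t ≤ 2 * Real.log T := by
      have h2 : Real.log t ≤ Real.log (T ^ 2) := by
        apply Real.log_le_log ht0
        nlinarith [ht.2]
      rw [Real.log_pow] at h2
      push_cast at h2
      exact h2
    have h3 : (t ^ (1 / 6 : ℝ)) ^ 6 = t := by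
      rw [← Real.rpow_natCast, ← Real.rpow_mul ht0.le]
      norm_num
    calc ‖z t‖ ^ (2 * 3) ≤ (C * (t ^ (1 / 6 : ℝ) * Real.log t)) ^ (2 * 3) :=
          pow_le_pow_left₀ (norm_nonneg _) h1 _
      _ = C ^ 6 * ((t ^ (1 / 6 : ℝ)) ^ 6 * Real.log t ^ 6) := by ring
      _ = C ^ 6 * (t * Real.log t ^ 6) := by rw [h3]
      _ ≤ C ^ 6 * ((2 * T) * (2 * Real.log T) ^ 6) := by
          apply mul_le_mul_of_nonneg_left _ (by positivity)
          apply mul_le_mul _ (pow_le_pow_left₀ hl0 hl 6) (by positivity) (by positivity)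
          linarith [ht.2]
      _ = _ := by ring
  have hcont : Continuous fun t : ℝ => ‖z t‖ ^ (2 * 3) * Real.exp (-(t - T) ^ 2) := by
    have h1 : Continuous fun t : ℝ => ‖z t‖ ^ (2 * 3) := Zk_cont 3
    exact h1.mul (by fun_prop)
  have hcont2 : Continuous fun t : ℝ => (C ^ 6 * (2 * 2 ^ 6) * (T * Real.log T ^ 6)) *
      Real.exp (-(t - T) ^ 2) := by fun_prop
  have h1 := intervalIntegral.integral_mono_on (by linarith : T / 2 ≤ 3 * T / 2)
    (hcont.intervalIntegrable (μ := volume) _ _) (hcont2.intervalIntegrable _ _) hpt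
  refine h1.trans ?_
  rw [intervalIntegral.integral_const_mul]
  have h2 : ∫ t in (T / 2)..(3 * T / 2), Real.exp (-(t - T) ^ 2) ≤ √Real.pi := by
    have hi : Integrable fun t : ℝ => Real.exp (-(t - T) ^ 2) := by
      have := (integrable_exp_neg_mul_sq one_pos).comp_sub_right T
      simpa using this
    have h3 : ∫ t : ℝ, Real.exp (-(t - T) ^ 2) = √Real.pi := by
      have h4 := integral_gaussian 1
      rw [div_one] at h4
      rw [← h4, ← integral_sub_right_eq_self (fun t : ℝ => Real.exp (-1 * t ^ 2)) T]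
      simp
    rw [← h3, intervalIntegral.integral_of_le (by linarith)]
    exact setIntegral_le_integral hi (Filter.Eventually.of_forall fun t => (Real.exp_pos _).le)
  calc _ ≤ C ^ 6 * (2 * 2 ^ 6) * (T * Real.log T ^ 6) * √Real.pi :=
        mul_le_mul_of_nonneg_left h2 (by positivity)
    _ = _ := by ring

/-- the sixth moment over at least four lines -/
theorem six_diff {u : ℂ} {N : ℕ} (hu : u ≠ 0) (hN : 4 ≤ N) :
    ∃ C T₀ : ℝ, 0 ≤ C ∧ ∀ T : ℝ, T₀ ≤ T →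
      |2 * Real.pi / N * (∑ᶠ t ∈ Pts u N ∩ Iic T, ‖z t‖ ^ (2 * 3) / Pool.Agent.W188.QS.lam t) -
        ∫ t in (0 : ℝ)..T, ‖z t‖ ^ (2 * 3)| ≤ C * (T * Real.log T ^ 6) := by
  obtain ⟨C, T₀, hC, h⟩ := sharp_diff (k := 3) hu (by norm_num) (by omega : 3 + 1 ≤ N)
  obtain ⟨D, hD, h2⟩ := local_six
  refine ⟨C * (1 + D), max T₀ 4, by positivity, fun T hT => ?_⟩
  have h3 := h T ((le_max_left _ _).trans hT)
  have hT4 : 4 ≤ T := (le_max_right _ _).trans hT
  have h4 := h2 T hT4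
  refine h3.trans ?_
  have hL : 1 ≤ Real.log T := by
    rw [Real.le_log_iff_exp_le (by linarith)]
    have := Real.exp_one_lt_d9
    linarith
  have h5 : 1 ≤ T * Real.log T ^ 6 := by
    have : 1 ≤ Real.log T ^ 6 := one_le_pow₀ hL
    nlinarith
  calc _ ≤ C * (1 * (T * Real.log T ^ 6) + D * (T * Real.log T ^ 6)) := by
        apply mul_le_mul_of_nonneg_left _ hC
        linarith
    _ = _ := by ring

/-- the relative error -/
theorem six_rel {u : ℂ} {N : ℕ} (hu : u ≠ 0) (hN : 4 ≤ N) :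
    ∃ C T₀ : ℝ, 0 ≤ C ∧ ∀ T : ℝ, T₀ ≤ T →
      |2 * Real.pi / N * (∑ᶠ t ∈ Pts u N ∩ Iic T, ‖z t‖ ^ (2 * 3) / Pool.Agent.W188.QS.lam t) -
        ∫ t in (0 : ℝ)..T, ‖z t‖ ^ (2 * 3)| ≤
          C / Real.log T ^ 3 * ∫ t in (0 : ℝ)..T, ‖z t‖ ^ (2 * 3) := by
  obtain ⟨C, T₀, hC, h⟩ := six_diff hu hN
  obtain ⟨c, hc, hlow⟩ := low (k := 3) (by norm_num)
  obtain ⟨T₁, hT₁⟩ := eventually_atTop.1 hlow
  refine ⟨C * (2 * 2 ^ 9 / c), max (max T₀ (2 * T₁)) 8, by positivity, fun T hT => ?_⟩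
  have hT1 : T₀ ≤ T := ((le_max_left _ _).trans (le_max_left _ _)).trans hT
  have hT2 : 2 * T₁ ≤ T := ((le_max_right _ _).trans (le_max_left _ _)).trans hT
  have hT8 : 8 ≤ T := (le_max_right _ _).trans hT
  refine (h T hT1).trans ?_
  have hT0 : 0 < T := by linarith
  have hL : 0 < Real.log T := Real.log_pos (by linarith)
  have h1 := hT₁ (T / 2) (by linarith)
  have e1 : ∫ t in (T / 2)..(2 * (T / 2)), Zk 3 t ≤ ∫ t in (0 : ℝ)..T, ‖z t‖ ^ (2 * 3) := by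
    have : 2 * (T / 2) = T := by ring
    rw [this]
    apply intervalIntegral.integral_mono_interval (by linarith) (by linarith) le_rfl
    · exact Filter.Eventually.of_forall fun t => Zk_nonneg 3 t
    · exact (Zk_cont 3).intervalIntegrable _ _
  have e2 : ((3 : ℕ) : ℝ) ^ 2 = ((9 : ℕ) : ℝ) := by norm_num
  rw [e2, Real.rpow_natCast] at h1
  have h2 : Real.log T / 2 ≤ Real.log (T / 2) := by
    have h3 : Real.log (T ^ (1 / 2 : ℝ)) ≤ Real.log (T / 2) := by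
      apply Real.log_le_log (by positivity)
      rw [← Real.sqrt_eq_rpow, Real.sqrt_le_left (by positivity)]
      nlinarith
    rw [Real.log_rpow hT0] at h3
    linarith
  have h3 : (Real.log T / 2) ^ 9 ≤ Real.log (T / 2) ^ 9 := pow_le_pow_left₀ (by positivity) h2 9
  have h4 : c * (T / 2 * (Real.log T / 2) ^ 9) ≤ ∫ t in (0 : ℝ)..T, ‖z t‖ ^ (2 * 3) := by
    refine le_trans ?_ (h1.trans e1)
    apply mul_le_mul_of_nonneg_left _ hc.le
    exact mul_le_mul_of_nonneg_left h3 (by positivity)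
  have h5 : T * Real.log T ^ 6 = (2 * 2 ^ 9 / c) / Real.log T ^ 3 * (c * (T / 2 * (Real.log T / 2) ^ 9)) := by
    field_simp
  rw [h5]
  calc C * ((2 * 2 ^ 9 / c) / Real.log T ^ 3 * (c * (T / 2 * (Real.log T / 2) ^ 9)))
      ≤ C * ((2 * 2 ^ 9 / c) / Real.log T ^ 3 * ∫ t in (0 : ℝ)..T, ‖z t‖ ^ (2 * 3)) := by
        apply mul_le_mul_of_nonneg_left _ hC
        exact mul_le_mul_of_nonneg_left h4 (by positivity)
    _ = _ := by ring

end Pool.Agent.Q288.MZ
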